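import Pool.Agent.H29.SX.Targets

/-!
Row CNT of shx_modules (MP_c65535_nt): many integer vectors of small norm (pigeonhole).
-/

set_option autoImplicit false

namespace Pool.Agent.H48.SX

open Finset Pool.Agent.H29.SX

theorem pf_CNT : T_CNT := by
  classical
  intro r H hH
  set G : ℝ := 2 * H * (r + 1) with hG
  have hr0 : (0 : ℝ) ≤ r := Nat.cast_nonneg _
  have hG0 : 0 < G := by positivity
  refine ⟨1 / (2 * (G + 1) ^ r), by positivity, ?_⟩
  intro lam σ ξ hlam hσ hσ1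
  set B : ℕ := ⌈G / σ⌉₊ with hB
  have hGσ : 0 < G / σ := div_pos hG0 hσ
  have hB1 : G / σ ≤ B := Nat.le_ceil _
  have hB0 : (0 : ℝ) < B := lt_of_lt_of_le hGσ hB1
  have hB2 : (B : ℝ) ≤ (G + 1) / σ := by
    have h1 : (B : ℝ) < G / σ + 1 := Nat.ceil_lt_add_one hGσ.le
    have h2 : (1 : ℝ) ≤ 1 / σ := by rw [le_div_iff₀ hσ]; linarith
    rw [add_div]
    linarith
  set P : ℕ := ⌊σ / (2 * lam)⌋₊ with hP
  have hP1 : (P : ℝ) ≤ σ / (2 * lam) := Nat.floor_le (by positivity)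
  have hP2 : σ / (2 * lam) < P + 1 := Nat.lt_floor_add_one _
  obtain ⟨idx, hidx⟩ : ∃ idx : ℕ → Fin r → ℕ, idx = fun (k : ℕ) (i : Fin r) =>
      ⌊(B : ℝ) * Int.fract ((k : ℝ) * ξ i)⌋₊ := ⟨_, rfl⟩
  have hmaps : ∀ k ∈ Finset.range (P + 1),
      idx k ∈ Fintype.piFinset (fun _ : Fin r => Finset.range B) := by
    intro k _
    rw [Fintype.mem_piFinset]
    intro i
    rw [Finset.mem_range, hidx]
    show ⌊(B : ℝ) * Int.fract ((k : ℝ) * ξ i)⌋₊ < B
    rw [Nat.floor_lt (mul_nonneg hB0.le (Int.fract_nonneg _))]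
    calc (B : ℝ) * Int.fract ((k : ℝ) * ξ i) < B * 1 :=
          mul_lt_mul_of_pos_left (Int.fract_lt_one _) hB0
      _ = B := mul_one _
  have hcardt : (Fintype.piFinset (fun _ : Fin r => Finset.range B)).card = B ^ r := by
    rw [Fintype.card_piFinset]
    simp
  have hne : (Fintype.piFinset (fun _ : Fin r => Finset.range B)).Nonempty := by
    rw [← Finset.card_pos, hcardt]
    have : 0 < B := by exact_mod_cast hB0
    positivity
  have hb : ((Fintype.piFinset (fun _ : Fin r => Finset.range B)).card) •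
      (((P : ℝ) + 1) / (B : ℝ) ^ r) ≤ ((Finset.range (P + 1)).card : ℝ) := by
    rw [hcardt, nsmul_eq_mul, Finset.card_range]
    push_cast
    have : (B : ℝ) ^ r ≠ 0 := by positivity
    rw [mul_div_cancel₀ _ this]
  obtain ⟨y, -, hy⟩ := Finset.exists_le_card_fiber_of_nsmul_le_card_of_maps_to hmaps hne hb
  set T : Finset ℕ := (Finset.range (P + 1)).filter fun k => idx k = y with hT
  have hT0 : 0 < T.card := by
    have h1 : (0 : ℝ) < ((P : ℝ) + 1) / (B : ℝ) ^ r := by positivity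
    have h2 : (0 : ℝ) < (T.card : ℝ) := lt_of_lt_of_le h1 hy
    exact_mod_cast h2
  obtain ⟨k0, hk0⟩ := Finset.card_pos.1 hT0
  have hk0' := Finset.mem_filter.1 hk0
  obtain ⟨av, hav⟩ : ∃ av : ℕ → Fin (r + 1) → ℤ, av = fun (k : ℕ) =>
      (Fin.cons ((k : ℤ) - (k0 : ℤ)) (fun i : Fin r => ⌊(k : ℝ) * ξ i⌋ - ⌊(k0 : ℝ) * ξ i⌋) :
        Fin (r + 1) → ℤ) := ⟨_, rfl⟩
  have hav0 : ∀ k, av k 0 = (k : ℤ) - k0 := by
    intro k
    rw [hav]
    rfl
  have havs : ∀ k (i : Fin r), av k i.succ = ⌊(k : ℝ) * ξ i⌋ - ⌊(k0 : ℝ) * ξ i⌋ := by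
    intro k i
    rw [hav]
    rfl
  refine ⟨T.image av, ?_, ?_⟩
  · intro a ha
    obtain ⟨k, hk, rfl⟩ := Finset.mem_image.1 ha
    have hk' := Finset.mem_filter.1 hk
    unfold nrm
    have h1 : |((av k 0 : ℤ) : ℝ)| ≤ P := by
      rw [hav0]
      push_cast
      have e1 : (k : ℝ) ≤ P := by
        have := Finset.mem_range.1 hk'.1
        exact_mod_cast Nat.lt_succ_iff.1 this
      have e2 : (k0 : ℝ) ≤ P := by
        have := Finset.mem_range.1 hk0'.1
        exact_mod_cast Nat.lt_succ_iff.1 this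
      have e3 : (0 : ℝ) ≤ k := Nat.cast_nonneg _
      have e4 : (0 : ℝ) ≤ k0 := Nat.cast_nonneg _
      rw [abs_le]
      constructor <;> linarith
    have h2 : ∀ i : Fin r, |((av k i.succ : ℤ) : ℝ) - (av k 0 : ℤ) * ξ i| ≤ 1 / B := by
      intro i
      have e1 : ((av k i.succ : ℤ) : ℝ) - (av k 0 : ℤ) * ξ i =
          Int.fract ((k0 : ℝ) * ξ i) - Int.fract ((k : ℝ) * ξ i) := by
        rw [havs, hav0]
        have f1 := Int.floor_add_fract ((k : ℝ) * ξ i)
        have f2 := Int.floor_add_fract ((k0 : ℝ) * ξ i)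
        push_cast
        linarith
      have e2 : ⌊(B : ℝ) * Int.fract ((k : ℝ) * ξ i)⌋₊ =
          ⌊(B : ℝ) * Int.fract ((k0 : ℝ) * ξ i)⌋₊ := by
        have g1 := congrFun (hk'.2.trans hk0'.2.symm) i
        rw [hidx] at g1
        exact g1
      rw [e1, abs_le]
      have g1 := Nat.floor_le (mul_nonneg hB0.le (Int.fract_nonneg ((k : ℝ) * ξ i)))
      have g2 := Nat.lt_floor_add_one ((B : ℝ) * Int.fract ((k : ℝ) * ξ i))
      have g3 := Nat.floor_le (mul_nonneg hB0.le (Int.fract_nonneg ((k0 : ℝ) * ξ i)))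
      have g4 := Nat.lt_floor_add_one ((B : ℝ) * Int.fract ((k0 : ℝ) * ξ i))
      rw [e2] at g1 g2
      constructor
      · rw [neg_le_iff_add_nonneg]
        have : 0 ≤ (B : ℝ) * (Int.fract ((k0 : ℝ) * ξ i) - Int.fract ((k : ℝ) * ξ i) + 1 / B) := by
          have : (B : ℝ) * (1 / B) = 1 := by field_simp
          nlinarith
        exact nonneg_of_mul_nonneg_right this hB0
      · rw [le_div_iff₀ hB0]
        nlinarith
    have h3 : ∑ i : Fin r, |((av k i.succ : ℤ) : ℝ) - (av k 0 : ℤ) * ξ i| ≤ r * (1 / B) := by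
      refine (Finset.sum_le_sum fun i _ => h2 i).trans ?_
      rw [Finset.sum_const, Finset.card_univ, Fintype.card_fin, nsmul_eq_mul]
    have h4 : |((av k 0 : ℤ) : ℝ)| * lam ≤ σ / 2 := by
      calc |((av k 0 : ℤ) : ℝ)| * lam ≤ (σ / (2 * lam)) * lam :=
            mul_le_mul_of_nonneg_right (h1.trans hP1) hlam.le
        _ = σ / 2 := by field_simp
    have h5 : H * ∑ i : Fin r, |((av k i.succ : ℤ) : ℝ) - (av k 0 : ℤ) * ξ i| ≤ σ / 2 := by
      have e1 : 1 / (B : ℝ) ≤ σ / G := by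
        rw [div_le_div_iff₀ hB0 hG0]
        rw [div_le_iff₀ hσ] at hB1
        linarith
      calc H * ∑ i : Fin r, |((av k i.succ : ℤ) : ℝ) - (av k 0 : ℤ) * ξ i|
          ≤ H * (r * (1 / B)) := mul_le_mul_of_nonneg_left h3 (by linarith)
        _ ≤ H * ((r + 1) * (σ / G)) := by
            refine mul_le_mul_of_nonneg_left ?_ (by linarith)
            exact mul_le_mul (by linarith) e1 (by positivity) (by linarith)
        _ = σ / 2 := by
            rw [hG]
            field_simp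
    linarith
  · have hinj : Set.InjOn av (T : Set ℕ) := by
      intro k _ k' _ hkk
      have h1 := congrFun hkk 0
      rw [hav0, hav0] at h1
      omega
    rw [Finset.card_image_of_injOn hinj]
    refine le_trans ?_ hy
    have h1 : (B : ℝ) ^ r ≤ (G + 1) ^ r / σ ^ r := by
      rw [← div_pow]
      exact pow_le_pow_left₀ hB0.le hB2 r
    have h2 : 0 < (B : ℝ) ^ r := by positivity
    have h3 : 0 < (G + 1) ^ r := by positivity
    have h4 : 0 < σ ^ r := by positivity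
    rw [le_div_iff₀ h2]
    calc 1 / (2 * (G + 1) ^ r) * σ ^ (r + 1) / lam * (B : ℝ) ^ r
        ≤ 1 / (2 * (G + 1) ^ r) * σ ^ (r + 1) / lam * ((G + 1) ^ r / σ ^ r) :=
          mul_le_mul_of_nonneg_left h1 (by positivity)
      _ = σ / (2 * lam) := by
          rw [pow_succ]
          field_simp
      _ ≤ P + 1 := hP2.le

end Pool.Agent.H48.SX
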