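import Pool.Agent.H29.SX.Targets

/-!
Rows FLD, FINS of shx_modules (MP_c65535_nt).
-/

set_option autoImplicit false

namespace Pool.Agent.H48.SX

open NumberField Height Finset Polynomial Pool.Agent.H24.RD Pool.Agent.H23.RDD Pool.Agent.H29.RQ
  Pool.Agent.H29.SX

theorem pf_FLD : T_FLD := by
  classical
  intro F Ω _ _ _ _ _ _ _ E hE s
  have hint : ∀ z : Ω, IsIntegral F z := fun z => Algebra.IsIntegral.isIntegral z
  have h1 : FiniteDimensional F (IntermediateField.adjoin F (s : Set Ω)) :=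
    IntermediateField.finiteDimensional_adjoin fun z _ => hint z
  set L : IntermediateField F Ω := E ⊔ IntermediateField.adjoin F (s : Set Ω) with hL
  have h2 : FiniteDimensional F L := IntermediateField.finiteDimensional_sup _ _
  set M : IntermediateField F Ω := IntermediateField.normalClosure F L Ω with hM
  have hLM : L ≤ M := IntermediateField.le_normalClosure L
  have hMfd : FiniteDimensional F M := normalClosure.is_finiteDimensional F L Ω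
  have hnor : Normal F Ω := by
    have : IsAlgClosure F Ω := ⟨inferInstance, inferInstance⟩
    exact IsAlgClosure.normal F Ω
  have hMn : Normal F M := normalClosure.normal F L Ω
  refine ⟨M, hMfd, le_sup_left.trans hLM, ?_, ?_⟩
  · intro z hz
    exact hLM ((le_sup_right : _ ≤ L) (IntermediateField.subset_adjoin F _ hz))
  · intro τ x hx
    have h3 := (IntermediateField.normal_iff_forall_map_le (K := M)).mp hMn (τ : Ω →ₐ[F] Ω)
    exact h3 ⟨x, hx, rfl⟩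

theorem dv_pow {F Ω : Type} [Field F] [Field Ω] [Algebra F Ω] {r : ℕ} (γ : Fin r → F) (g : Ω)
    (hg : g ∈ Dv F Ω γ) (a : ℕ) : g ^ a ∈ Dv F Ω γ := by
  obtain ⟨h0, n, hn, x, hx⟩ := hg
  refine ⟨pow_ne_zero _ h0, n, hn, fun i => x i * a, ?_⟩
  rw [← pow_mul, mul_comm, pow_mul, hx, ← Finset.prod_pow]
  refine Finset.prod_congr rfl fun i _ => ?_
  rw [zpow_mul, zpow_natCast]

theorem dv_of_pow {F Ω : Type} [Field F] [Field Ω] [Algebra F Ω] {r : ℕ} (γ : Fin r → F) (α : Ω)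
    (h0 : α ≠ 0) (a : ℕ) (ha : 0 < a) (h : α ^ a ∈ Dv F Ω γ) : α ∈ Dv F Ω γ := by
  obtain ⟨_, n, hn, x, hx⟩ := h
  exact ⟨h0, a * n, Nat.mul_pos ha hn, x, by rw [pow_mul]; exact hx⟩

theorem pf_FINS (h1 : T_HB) (h2 : T_REDQ) (h3 : T_BOT) (h4 : T_CDF) : T_FINS := by
  intro F Ω _ _ _ _ _ _ _ r γ hγ ε hε
  have halg : Algebra.IsAlgebraic ℚ Ω := Algebra.IsAlgebraic.trans ℚ F Ω
  obtain ⟨c, hc, hb⟩ := h3 F Ω r γ hγ ε hε
  refine ⟨c, hc, ?_⟩
  intro N K d hN hKN hd α hrep hα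
  obtain ⟨β, hβ, hcj, -, g, hg, hag⟩ := hrep
  have hK : 0 < K := Nat.pos_of_dvd_of_pos hKN hN
  have h5 := h4 F Ω r γ hγ.1 N K d hN hKN β hcj
  obtain ⟨N₁, a, d₁, hN₁, -, ha, hd₁, had, hcj₁, hred₁⟩ :=
    h2 F Ω r γ hγ.1 N 1 (K ^ r * d) hN (one_dvd _) (by positivity) β hβ h5
  have hg0 : g ≠ 0 := hg.1
  have hα0 : α ≠ 0 := by rw [hag]; exact mul_ne_zero hβ hg0
  have hrep₁ : RepD F Ω γ N₁ 1 d₁ (α ^ a) :=
    ⟨β ^ a, pow_ne_zero _ hβ, hcj₁, hred₁, g ^ a, dv_pow γ g hg a, by rw [hag, mul_pow]⟩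
  have h6 := hb N₁ d₁ hN₁ hd₁ (α ^ a) hrep₁ fun h => hα (dv_of_pow γ α hα0 a ha h)
  obtain ⟨hH0, -, -, hHp, -⟩ := h1 Ω
  rw [hHp] at h6
  refine h6.trans ?_
  have ha1 : (1 : ℝ) ≤ a := by exact_mod_cast ha
  have hd0 : (0 : ℝ) < d₁ := by exact_mod_cast hd₁
  have e1 : (a : ℝ) ≤ (a : ℝ) ^ (1 + ε) := by
    calc (a : ℝ) = (a : ℝ) ^ (1 : ℝ) := (Real.rpow_one _).symm
      _ ≤ (a : ℝ) ^ (1 + ε) := Real.rpow_le_rpow_of_exponent_le ha1 (by linarith)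
  have e2 : (a : ℝ) * (d₁ : ℝ) ^ (1 + ε) ≤ ((K : ℝ) ^ r * d) ^ (1 + ε) := by
    calc (a : ℝ) * (d₁ : ℝ) ^ (1 + ε) ≤ (a : ℝ) ^ (1 + ε) * (d₁ : ℝ) ^ (1 + ε) :=
          mul_le_mul_of_nonneg_right e1 (Real.rpow_nonneg hd0.le _)
      _ = ((a : ℝ) * d₁) ^ (1 + ε) := by
          rw [Real.mul_rpow (by linarith) hd0.le]
      _ ≤ ((K : ℝ) ^ r * d) ^ (1 + ε) := by
          refine Real.rpow_le_rpow (by positivity) ?_ (by linarith)
          exact_mod_cast had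
  calc (a : ℝ) * absLogHeight₁ α * (d₁ : ℝ) ^ (1 + ε) =
      absLogHeight₁ α * ((a : ℝ) * (d₁ : ℝ) ^ (1 + ε)) := by ring
    _ ≤ absLogHeight₁ α * ((K : ℝ) ^ r * d) ^ (1 + ε) :=
        mul_le_mul_of_nonneg_left e2 (hH0 α)

end Pool.Agent.H48.SX
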