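import Pool.Agent.H29.SX.Targets

/-!
Row GAU of shx_modules (MP_c65535_nt): the Gauss norm.
-/

set_option autoImplicit false

namespace Pool.Agent.H48.SX

open Finset Polynomial Pool.Agent.H29.RQ Pool.Agent.H29.SX

theorem sum_le {M ι : Type} [Field M] (v : AbsoluteValue M ℝ) (hv : IsNonarchimedean v)
    (s : Finset ι) (f : ι → M) (B : ℝ) (hB : 0 ≤ B) (h : ∀ i ∈ s, v (f i) ≤ B) :
    v (∑ i ∈ s, f i) ≤ B := by
  classical
  induction s using Finset.induction_on with
  | empty => simpa using hB
  | insert a s ha ih =>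
    rw [Finset.sum_insert ha]
    refine (hv _ _).trans (max_le (h a (Finset.mem_insert_self a s)) (ih fun i hi => ?_))
    exact h i (Finset.mem_insert_of_mem hi)

theorem step_le {M : Type} [Field M] (v : AbsoluteValue M ℝ) (hv : IsNonarchimedean v)
    (H : M[X]) (u : M) (B : ℝ) (h : ∀ k, v (((X - C u) * H).coeff k) ≤ B) (k : ℕ) :
    v (H.coeff k) * max (v u) 1 ≤ B := by
  have hB : 0 ≤ B := (AbsoluteValue.nonneg v _).trans (h 0)
  have h0 : ((X - C u) * H).coeff 0 = -(u * H.coeff 0) := by
    rw [sub_mul, coeff_sub, coeff_C_mul, mul_coeff_zero, coeff_X_zero]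
    ring
  have h1 : ∀ j, ((X - C u) * H).coeff (j + 1) = H.coeff j - u * H.coeff (j + 1) := by
    intro j
    rw [sub_mul, coeff_sub, coeff_C_mul, coeff_X_mul]
  rcases le_total (v u) 1 with hu | hu
  · rw [max_eq_right hu, mul_one]
    have key : ∀ j k, H.natDegree + 1 ≤ k + j → v (H.coeff k) ≤ B := by
      intro j
      induction j with
      | zero =>
        intro k hk
        rw [coeff_eq_zero_of_natDegree_lt (by omega), map_zero]
        exact hB
      | succ j ih =>
        intro k hk
        have h2 := h1 k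
        have h3 : H.coeff k = ((X - C u) * H).coeff (k + 1) + u * H.coeff (k + 1) := by
          rw [h2]
          ring
        rw [h3]
        refine (hv _ _).trans (max_le (h _) ?_)
        rw [map_mul]
        have h4 := ih (k + 1) (by omega)
        calc v u * v (H.coeff (k + 1)) ≤ 1 * B :=
              mul_le_mul hu h4 (AbsoluteValue.nonneg v _) zero_le_one
          _ = B := one_mul B
    exact key (H.natDegree + 1) k (by omega)
  · rw [max_eq_left hu]
    induction k with
    | zero =>
      have h2 := h 0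
      rw [h0, AbsoluteValue.map_neg, map_mul] at h2
      rw [mul_comm]
      exact h2
    | succ k ih =>
      have h3 : u * H.coeff (k + 1) = H.coeff k + -(((X - C u) * H).coeff (k + 1)) := by
        rw [h1 k]
        ring
      have h4 : v (H.coeff k) ≤ B := by
        refine le_trans ?_ ih
        exact le_mul_of_one_le_right (AbsoluteValue.nonneg v _) hu
      rw [mul_comm, ← map_mul, h3]
      refine (hv _ _).trans (max_le h4 ?_)
      rw [AbsoluteValue.map_neg]
      exact h _

theorem multi_le {M : Type} [Field M] (v : AbsoluteValue M ℝ) (hv : IsNonarchimedean v)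
    (s : Multiset M) (H : M[X]) (B : ℝ)
    (h : ∀ k, v (((s.map fun u => X - C u).prod * H).coeff k) ≤ B) (k : ℕ) :
    v (H.coeff k) * (s.map fun u => max (v u) 1).prod ≤ B := by
  induction s using Multiset.induction_on generalizing B with
  | empty => simpa using h k
  | cons a s ih =>
    rw [Multiset.map_cons, Multiset.prod_cons]
    have hpos : 0 < max (v a) 1 := lt_max_of_lt_right one_pos
    have h1 : ∀ j, v (((s.map fun u => X - C u).prod * H).coeff j) ≤ B / max (v a) 1 := by
      intro j
      rw [le_div_iff₀ hpos]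
      refine step_le v hv _ a B (fun i => ?_) j
      have h2 := h i
      rw [Multiset.map_cons, Multiset.prod_cons, mul_assoc] at h2
      exact h2
    have h3 := ih _ h1
    rw [le_div_iff₀ hpos] at h3
    calc _ = v (H.coeff k) * (s.map fun u => max (v u) 1).prod * max (v a) 1 := by ring
      _ ≤ B := h3

theorem pf_GAU : T_GAU := by
  classical
  intro M _ v hv U τ h Δ hdvd hc hdeg w
  set m : ℝ := max (v w) 1 with hm
  have hm1 : 1 ≤ m := le_max_right _ _
  have hm0 : 0 < m := lt_of_lt_of_le one_pos hm1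
  have hdch : ∀ u, 0 ≤ dch v w u := by
    intro u
    unfold dch
    exact div_nonneg (AbsoluteValue.nonneg v _) (by positivity)
  by_cases h0 : h = 0
  · rw [h0, eval_zero, map_zero]
    exact mul_nonneg (pow_nonneg (Finset.prod_nonneg fun u _ => hdch u) _) (by positivity)
  obtain ⟨H, hH⟩ := hdvd
  have hH0 : H ≠ 0 := by
    rintro rfl
    rw [mul_zero] at hH
    exact h0 hH
  set P : M[X] := ∏ u ∈ U, (X - C u) with hP
  have hPm : P.Monic := monic_prod_of_monic _ _ fun u _ => monic_X_sub_C u
  have hPdeg : P.natDegree = U.card := by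
    rw [hP, natDegree_prod_of_monic _ _ fun u _ => monic_X_sub_C u]
    simp
  have hPt : P ^ τ = ((τ • U.val).map fun u => X - C u).prod := by
    rw [Multiset.map_nsmul, Multiset.prod_nsmul]
    rfl
  have hcoef : ∀ k, v (H.coeff k) * (∏ u ∈ U, max (v u) 1) ^ τ ≤ 1 := by
    intro k
    have h1 := multi_le v hv (τ • U.val) H 1 (by
      intro k
      rw [← hPt, ← hH]
      exact hc k) k
    rw [Multiset.map_nsmul, Multiset.prod_nsmul] at h1
    exact h1
  have hQ0 : 0 < (∏ u ∈ U, max (v u) 1) ^ τ :=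
    pow_pos (Finset.prod_pos fun u _ => lt_max_of_lt_right one_pos) _
  set A : ℝ := ((∏ u ∈ U, max (v u) 1) ^ τ)⁻¹ with hA
  have hA0 : 0 < A := inv_pos.2 hQ0
  have hHw : v (H.eval w) ≤ A * m ^ H.natDegree := by
    rw [eval_eq_sum_range]
    refine sum_le v hv _ _ _ (by positivity) fun i hi => ?_
    rw [map_mul, map_pow]
    have h1 : v (H.coeff i) ≤ A := by
      rw [hA, ← one_div, le_div_iff₀ hQ0]
      exact hcoef i
    have h2 : v w ^ i ≤ m ^ H.natDegree := by
      calc v w ^ i ≤ m ^ i := pow_le_pow_left₀ (AbsoluteValue.nonneg v _) (le_max_left _ _) i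
        _ ≤ m ^ H.natDegree :=
            pow_le_pow_right₀ hm1 (by have := Finset.mem_range.1 hi; omega)
    exact mul_le_mul h1 h2 (pow_nonneg (AbsoluteValue.nonneg v _) _) hA0.le
  have hdegH : U.card * τ + H.natDegree ≤ Δ := by
    have h1 : h.natDegree = (P ^ τ).natDegree + H.natDegree := by
      rw [hH]
      exact (hPm.pow τ).natDegree_mul' hH0
    rw [hPm.natDegree_pow, hPdeg] at h1
    rw [mul_comm]
    omega
  have hPw : v (P.eval w) = (∏ u ∈ U, dch v w u) * (m ^ U.card * ∏ u ∈ U, max (v u) 1) := by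
    have h1 : m ^ U.card = ∏ _u ∈ U, m := by rw [Finset.prod_const]
    rw [hP, eval_prod, map_prod, h1, ← Finset.prod_mul_distrib, ← Finset.prod_mul_distrib]
    refine Finset.prod_congr rfl fun u _ => ?_
    rw [eval_sub, eval_X, eval_C]
    unfold dch
    rw [div_mul_cancel₀]
    have : 0 < max (v u) 1 := lt_max_of_lt_right one_pos
    positivity
  have hfin : v (h.eval w) = (∏ u ∈ U, dch v w u) ^ τ *
      (m ^ (U.card * τ) * (∏ u ∈ U, max (v u) 1) ^ τ) * v (H.eval w) := by
    rw [hH, eval_mul, eval_pow, map_mul, map_pow, hPw, mul_pow, mul_pow, pow_mul]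
  rw [hfin]
  have hD0 : 0 ≤ (∏ u ∈ U, dch v w u) ^ τ :=
    pow_nonneg (Finset.prod_nonneg fun u _ => hdch u) _
  calc (∏ u ∈ U, dch v w u) ^ τ *
      (m ^ (U.card * τ) * (∏ u ∈ U, max (v u) 1) ^ τ) * v (H.eval w)
      ≤ (∏ u ∈ U, dch v w u) ^ τ *
      (m ^ (U.card * τ) * (∏ u ∈ U, max (v u) 1) ^ τ) * (A * m ^ H.natDegree) :=
        mul_le_mul_of_nonneg_left hHw (by positivity)
    _ = (∏ u ∈ U, dch v w u) ^ τ * m ^ (U.card * τ + H.natDegree) *
        ((∏ u ∈ U, max (v u) 1) ^ τ * A) := by
        rw [pow_add]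
        ring
    _ = (∏ u ∈ U, dch v w u) ^ τ * m ^ (U.card * τ + H.natDegree) := by
        rw [hA, mul_inv_cancel₀ hQ0.ne', mul_one]
    _ ≤ (∏ u ∈ U, dch v w u) ^ τ * m ^ Δ :=
        mul_le_mul_of_nonneg_left (pow_le_pow_right₀ hm1 hdegH) hD0

end Pool.Agent.H48.SX
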