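import Pool.Agent.H29.SX.Targets

/-!
Row NU3 of shx_modules (MP_c65535_nt): choice of the parameters.
-/

set_option autoImplicit false

namespace Pool.Agent.H48.SX

open Finset Pool.Agent.H29.SX

theorem pf_NU3 : T_NU3 := by
  intro p f n0 r ε hp hf hn0 hε
  have hp1 : (1 : ℝ) < p := by exact_mod_cast (by omega : 1 < p)
  have hp0 : (0 : ℝ) < p := by linarith
  obtain ⟨ℓ, hℓdef⟩ : ∃ ℓ : ℝ, ℓ = Real.log p := ⟨_, rfl⟩
  have hℓ : 0 < ℓ := by rw [hℓdef]; exact Real.log_pos hp1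
  obtain ⟨m, hm⟩ : ∃ m : ℝ, m = (r : ℝ) + 1 := ⟨_, rfl⟩
  have hr0 : (0 : ℝ) ≤ r := Nat.cast_nonneg _
  have hm1 : 1 ≤ m := by linarith
  obtain ⟨η, hη⟩ : ∃ η : ℝ, η = min ε (1 / 2) := ⟨_, rfl⟩
  have hη0 : 0 < η := by rw [hη]; exact lt_min hε (by norm_num)
  have hηε : η ≤ ε := by rw [hη]; exact min_le_left _ _
  obtain ⟨e7, he7⟩ : ∃ e7 : ℝ, e7 = η / m := ⟨_, rfl⟩
  have he70 : 0 < e7 := by rw [he7]; positivity
  have he7m : e7 * m = η := by rw [he7]; field_simp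
  have he7η : e7 ≤ η := by
    rw [← he7m]
    exact le_mul_of_one_le_right he70.le hm1
  refine ⟨e7 / 2, by positivity, by linarith, ?_⟩
  intro c₁ c₂ c₃ h1 h2 h3
  obtain ⟨t, ht1, ht⟩ : ∃ t : ℕ, 1 ≤ t ∧ 4 * m ^ 2 + 2 * m + 1 ≤ t * (e7 / 2) := by
    refine ⟨⌈(4 * m ^ 2 + 2 * m + 1) / (e7 / 2)⌉₊ + 1, by omega, ?_⟩
    have e1 := Nat.le_ceil ((4 * m ^ 2 + 2 * m + 1) / (e7 / 2))
    rw [div_le_iff₀ (by positivity)] at e1
    push_cast
    rw [add_mul]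
    linarith only [e1, he70]
  obtain ⟨s, hs⟩ : ∃ s : ℕ, s = t ^ (r + 2) := ⟨_, rfl⟩
  have hs1 : 1 ≤ s := by rw [hs]; exact Nat.one_le_pow _ _ ht1
  have ht1' : (1 : ℝ) ≤ t := by exact_mod_cast ht1
  have hs1' : (1 : ℝ) ≤ s := by exact_mod_cast hs1
  obtain ⟨Q, hQ⟩ : ∃ Q : ℝ, Q = (p : ℝ) ^ f := ⟨_, rfl⟩
  have hQ1 : 1 ≤ Q := by rw [hQ]; exact one_le_pow₀ hp1.le
  have hQ0 : 0 < Q := by linarith
  have hlogQ : Real.log Q = f * ℓ := by rw [hQ, Real.log_pow, hℓdef]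
  obtain ⟨Gc, hGc⟩ : ∃ Gc : ℝ, Gc = 16 * ((t : ℝ) + s) * Q ^ (2 * (r + 1) * s) := ⟨_, rfl⟩
  have hGc1 : 1 ≤ Gc := by
    rw [hGc]
    have e1 : 1 ≤ Q ^ (2 * (r + 1) * s) := one_le_pow₀ hQ1
    exact one_le_mul_of_one_le_of_one_le (by linarith only [ht1', hs1']) e1
  have hGc0 : 0 < Gc := by linarith
  obtain ⟨Cb, hCb⟩ : ∃ Cb : ℝ, Cb = (Gc * Q ^ s) ^ (r + 1) := ⟨_, rfl⟩
  have hCb0 : 0 < Cb := by rw [hCb]; positivity
  obtain ⟨a, ha⟩ : ∃ a : ℝ, a = f * ℓ + n0 * ℓ - Real.log c₂ := ⟨_, rfl⟩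
  obtain ⟨Cc, hCc⟩ : ∃ Cc : ℝ, Cc = Real.log 3 + Real.log (2 + 1 / c₁) := ⟨_, rfl⟩
  have h1c : 0 < 1 / c₁ := by positivity
  have hlog3 : 0 ≤ Real.log 3 := Real.log_nonneg (by norm_num)
  have hlog2 : 0 ≤ Real.log (2 + 1 / c₁) := Real.log_nonneg (by linarith)
  have hCc0 : 0 ≤ Cc := by rw [hCc]; linarith
  obtain ⟨L, hL⟩ : ∃ L : ℝ, L = max ((2 * m + 1) * Cc + 8 + t * a) (a / (e7 / 2)) := ⟨_, rfl⟩
  have hL1 : (2 * m + 1) * Cc + 8 + t * a ≤ L := by rw [hL]; exact le_max_left _ _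
  have hL2 : a / (e7 / 2) ≤ L := by rw [hL]; exact le_max_right _ _
  refine ⟨min (min c₂ (c₃ / Cb)) (c₁ * Real.exp (-(2 * m * L))), ?_, ?_, ?_⟩
  · exact lt_min (lt_min h2 (div_pos h3 hCb0)) (mul_pos h1 (Real.exp_pos _))
  · exact (min_le_left _ _).trans (min_le_left _ _)
  intro D v lam hD hlam hc1 hv hc
  have hD1 : (1 : ℝ) ≤ D := by exact_mod_cast hD
  have hD0 : (0 : ℝ) < D := by linarith
  obtain ⟨x, hx⟩ : ∃ x : ℝ, x = Real.log D := ⟨_, rfl⟩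
  have hx0 : 0 ≤ x := by rw [hx]; exact Real.log_nonneg hD1
  have hlamD : lam ≤ lam * (D : ℝ) ^ (1 + ε) :=
    le_mul_of_one_le_right hlam.le (Real.one_le_rpow hD1 (by linarith))
  have hLx : L < x := by
    have e1 : lam < c₁ * Real.exp (-(2 * m * L)) :=
      lt_of_le_of_lt hlamD (lt_of_lt_of_le hc (min_le_right _ _))
    have e2 : Real.log lam < Real.log c₁ + -(2 * m * L) := by
      have := Real.log_lt_log hlam e1
      rwa [Real.log_mul h1.ne' (Real.exp_pos _).ne', Real.log_exp] at this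
    have e3 : Real.log c₁ ≤ Real.log lam + 2 * m * x := by
      have := Real.log_le_log h1 hc1
      rw [Real.log_mul hlam.ne' (by positivity), Real.log_pow, ← hx] at this
      push_cast at this
      rw [hm]
      linarith
    have e4 : 2 * m * L < 2 * m * x := by linarith
    exact lt_of_mul_lt_mul_left e4 (by linarith)
  have hax : a < e7 / 2 * x := by
    rw [div_le_iff₀ (by positivity)] at hL2
    have e1 : L * (e7 / 2) < x * (e7 / 2) := mul_lt_mul_of_pos_right hLx (by linarith only [he70])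
    linarith only [e1, hL2]
  have hfℓ : 0 < (f : ℝ) * ℓ := by
    have : (0 : ℝ) < f := by exact_mod_cast hf
    positivity
  obtain ⟨e0, he0⟩ : ∃ e0 : ℕ, e0 = ⌊e7 * x / (f * ℓ)⌋₊ := ⟨_, rfl⟩
  have he0a : (e0 : ℝ) * (f * ℓ) ≤ e7 * x := by
    have := Nat.floor_le (show 0 ≤ e7 * x / (f * ℓ) by positivity)
    rw [← he0, le_div_iff₀ hfℓ] at this
    exact this
  have he0b : e7 * x < ((e0 : ℝ) + 1) * (f * ℓ) := by
    have := Nat.lt_floor_add_one (e7 * x / (f * ℓ))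
    rw [← he0, div_lt_iff₀ hfℓ] at this
    exact this
  have hvℓ : Real.log c₂ + v * ℓ ≤ e7 / 2 * x := by
    have := Real.log_le_log (by positivity) hv
    rw [Real.log_mul h2.ne' (by positivity), Real.log_pow, Real.log_rpow hD0, ← hx, ← hℓdef] at this
    exact this
  have hkey : e7 / 2 * x - a < ((f * e0 : ℕ) : ℝ) * ℓ - ((v + n0 : ℕ) : ℝ) * ℓ := by
    push_cast
    rw [ha]
    have e1 : ((e0 : ℝ) + 1) * (f * ℓ) = f * e0 * ℓ + f * ℓ := by ring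
    have e2 : ((v : ℝ) + n0) * ℓ = v * ℓ + n0 * ℓ := by ring
    rw [e1] at he0b
    rw [e2]
    linarith only [he0b, hvℓ]
  have hkl : v + n0 < f * e0 := by
    have e1 : ((v + n0 : ℕ) : ℝ) * ℓ < ((f * e0 : ℕ) : ℝ) * ℓ := by linarith
    have e2 := lt_of_mul_lt_mul_right e1 hℓ.le
    exact_mod_cast e2
  obtain ⟨e', he'⟩ : ∃ e' : ℕ, f * e0 = (v + n0) + e' := ⟨f * e0 - (v + n0), by omega⟩
  have he'l : e7 / 2 * x - a < e' * ℓ := by
    have e1 : ((f * e0 : ℕ) : ℝ) = ((v + n0 : ℕ) : ℝ) + e' := by exact_mod_cast he'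
    rw [e1] at hkey
    linarith
  obtain ⟨y, hy⟩ : ∃ y : ℝ, y = (D : ℝ) ^ e7 := ⟨_, rfl⟩
  have hy1 : 1 ≤ y := by rw [hy]; exact Real.one_le_rpow hD1 he70.le
  have hy0 : 0 < y := by linarith
  have hlogy : Real.log y = e7 * x := by rw [hy, Real.log_rpow hD0, hx]
  have hQy : Q ^ e0 ≤ y := by
    rw [← Real.log_le_log_iff (by positivity) hy0, Real.log_pow, hlogQ, hlogy]
    exact he0a
  have hQs1 : 1 ≤ Q ^ s := one_le_pow₀ hQ1
  obtain ⟨ρ, hρ⟩ : ∃ ρ : ℝ, ρ = 1 / (Q ^ s * y) := ⟨_, rfl⟩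
  have hρ0 : 0 < ρ := by rw [hρ]; positivity
  have hρ1 : ρ ≤ 1 := by
    rw [hρ, div_le_one (by positivity)]
    exact one_le_mul_of_one_le_of_one_le hQs1 hy1
  have hρQ : ρ * Q ^ (e0 + s) ≤ 1 := by
    rw [hρ, pow_add, one_div, inv_mul_le_iff₀ (by positivity), mul_one, mul_comm]
    exact mul_le_mul_of_nonneg_left hQy (by positivity)
  have hyr : y ^ (r + 1) = (D : ℝ) ^ η := by
    rw [hy, ← Real.rpow_natCast, ← Real.rpow_mul hD0.le]
    congr 1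
    push_cast
    rw [← hm]
    exact he7m
  have hDlt : (D : ℝ) < c₃ * (ρ / Gc) ^ (r + 1) / lam := by
    rw [lt_div_iff₀ hlam]
    have e1 : (ρ / Gc) ^ (r + 1) = 1 / (Cb * (D : ℝ) ^ η) := by
      rw [hρ, ← hyr, hCb, ← mul_pow, ← one_pow (r + 1), ← div_pow, one_pow]
      congr 1
      field_simp
    rw [e1]
    have hDη : 0 < (D : ℝ) ^ η := Real.rpow_pos_of_pos hD0 _
    have e2 : lam * (D : ℝ) ^ (1 + η) < c₃ / Cb := by
      have e3 : lam * (D : ℝ) ^ (1 + ε) < c₃ / Cb :=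
        lt_of_lt_of_le hc ((min_le_left _ _).trans (min_le_right _ _))
      have e4 : (D : ℝ) ^ (1 + η) ≤ (D : ℝ) ^ (1 + ε) :=
        Real.rpow_le_rpow_of_exponent_le hD1 (by linarith)
      exact lt_of_le_of_lt (mul_le_mul_of_nonneg_left e4 hlam.le) e3
    have e5 : c₃ * (1 / (Cb * (D : ℝ) ^ η)) = c₃ / Cb / (D : ℝ) ^ η := by
      field_simp
    rw [e5, lt_div_iff₀ hDη]
    have e6 : (D : ℝ) ^ (1 + η) = D * (D : ℝ) ^ η := by
      rw [Real.rpow_add hD0, Real.rpow_one]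
    rw [e6] at e2
    linarith
  refine ⟨s, t, e0, v + n0, e', ρ / Gc, ρ, ht1, he', ?_, by positivity, ?_, ?_, hDlt, ?_⟩
  · have e1 : (n0 : ℝ) ≤ (p : ℝ) ^ n0 := by
      have : n0 ≤ p ^ n0 := (Nat.lt_pow_self (by omega : 1 < p)).le
      exact_mod_cast this
    have hn0' : (0 : ℝ) < n0 := by exact_mod_cast hn0
    have e2 : (0 : ℝ) < ((n0 * p ^ v : ℕ) : ℝ) := by
      push_cast
      positivity
    rw [mul_one_div, le_div_iff₀ e2, one_mul, pow_add]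
    push_cast
    rw [mul_comm]
    exact mul_le_mul_of_nonneg_left e1 (by positivity)
  · rw [div_le_one hGc0]
    linarith
  · rw [← hQ, ← hGc]
    rw [mul_div_cancel₀ _ hGc0.ne']
  intro R d0 r0 hr01 hd0 hR hRZ
  rw [← hQ, ← hℓdef]
  obtain ⟨Z, hZ⟩ : ∃ Z : ℝ, Z = 1 + ρ + ρ / lam := ⟨_, rfl⟩
  rw [← hZ] at hRZ ⊢
  have hρlam : 0 < ρ / lam := div_pos hρ0 hlam
  have hZ1 : 1 ≤ Z := by linarith
  have hZ0 : 0 < Z := by linarith
  obtain ⟨Y, hY⟩ : ∃ Y : ℝ, Y = (D : ℝ) ^ (2 * (r + 1)) := ⟨_, rfl⟩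
  rw [← hY] at hc1
  have hY1 : 1 ≤ Y := by rw [hY]; exact one_le_pow₀ hD1
  have hlogY : Real.log Y = 2 * m * x := by
    rw [hY, Real.log_pow, ← hx, hm]
    push_cast
    ring
  have hZY : Z ≤ (2 + 1 / c₁) * Y := by
    have e1 : ρ / lam ≤ 1 / c₁ * Y := by
      rw [div_le_iff₀ hlam]
      have e2 : 1 ≤ 1 / c₁ * Y * lam := by
        rw [div_mul_eq_mul_div, one_mul, div_mul_eq_mul_div, le_div_iff₀ h1]
        linarith
      linarith
    rw [hZ, add_mul]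
    linarith only [e1, hY1, hρ1]
  obtain ⟨X, hX⟩ : ∃ X : ℝ, X = 2 * m * x + Cc := ⟨_, rfl⟩
  have hlogZ : Real.log Z ≤ Real.log (2 + 1 / c₁) + 2 * m * x := by
    have := Real.log_le_log hZ0 hZY
    rw [Real.log_mul (by positivity) (by linarith), hlogY] at this
    exact this
  have hlogZX : Real.log Z ≤ X := by rw [hX, hCc]; linarith
  have hlog2Z : Real.log (2 * Z + 1) ≤ X := by
    have e1 : 2 * Z + 1 ≤ 3 * Z := by linarith
    have e2 := Real.log_le_log (by linarith) e1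
    rw [Real.log_mul (by norm_num) hZ0.ne'] at e2
    rw [hX, hCc]
    linarith
  have hX0 : 0 ≤ X := by rw [hX]; positivity
  have hR1 : 1 ≤ R := by
    have : 1 * 1 ≤ s * r0 := Nat.mul_le_mul hs1 hr01
    omega
  have hR1' : (1 : ℝ) ≤ R := by exact_mod_cast hR1
  have hlogR0 : 0 ≤ Real.log R := Real.log_nonneg hR1'
  have hlogR : Real.log R ≤ m * X := by
    have e1 := Real.log_le_log (by linarith) hRZ
    rw [Real.log_pow] at e1
    push_cast at e1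
    rw [← hm] at e1
    exact e1.trans (mul_le_mul_of_nonneg_left hlog2Z (by linarith))
  obtain ⟨w, hw⟩ : ∃ w : ℝ, w = (R : ℝ) - d0 := ⟨_, rfl⟩
  have hsr : (d0 : ℝ) + s * r0 ≤ R := by exact_mod_cast hR
  have hdt : (d0 : ℝ) * t ≤ s * r0 := by
    have e1 : d0 * t ≤ s * r0 := by
      calc d0 * t ≤ t ^ (r + 1) * r0 * t := Nat.mul_le_mul_right _ hd0
        _ = s * r0 := by rw [hs]; ring
    exact_mod_cast e1
  have hd0' : (0 : ℝ) ≤ d0 := Nat.cast_nonneg _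
  have hr01' : (1 : ℝ) ≤ r0 := by exact_mod_cast hr01
  have hw1 : 1 ≤ w := by
    have := one_le_mul_of_one_le_of_one_le hs1' hr01'
    rw [hw]
    linarith only [this, hsr]
  have hdtw : (d0 : ℝ) * t ≤ w := by rw [hw]; linarith only [hdt, hsr]
  have hdw : (d0 : ℝ) ≤ w := (le_mul_of_one_le_right hd0' ht1').trans hdtw
  have hRw : (R : ℝ) ≤ 2 * w := by linarith only [hdw, hw]
  have hw0 : 0 ≤ w := by linarith only [hw1]
  rw [← hw]
  have t1 : (R : ℝ) * Real.log R ≤ 2 * w * (m * X) :=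
    mul_le_mul hRw hlogR hlogR0 (by linarith only [hw0])
  have t2 : 4 * (R : ℝ) * ρ * Q ^ (e0 + s) ≤ 8 * w := by
    calc 4 * (R : ℝ) * ρ * Q ^ (e0 + s) = 4 * (R : ℝ) * (ρ * Q ^ (e0 + s)) := by ring
      _ ≤ 4 * (R : ℝ) * 1 := mul_le_mul_of_nonneg_left hρQ (by linarith only [hR1'])
      _ ≤ 8 * w := by linarith only [hRw]
  have t3 : (d0 : ℝ) * t * Real.log Z ≤ w * X :=
    mul_le_mul hdtw hlogZX (Real.log_nonneg hZ1) hw0
  have t4 : w * t * (e7 / 2 * x - a) < w * t * ((e' : ℝ) + 1) * ℓ := by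
    have e1 : e7 / 2 * x - a < ((e' : ℝ) + 1) * ℓ := by
      rw [add_mul]
      linarith only [he'l, hℓ]
    have e2 : 0 < w * t := mul_pos (by linarith only [hw1]) (by linarith only [ht1'])
    calc w * t * (e7 / 2 * x - a) < w * t * (((e' : ℝ) + 1) * ℓ) :=
          mul_lt_mul_of_pos_left e1 e2
      _ = _ := by ring
  have t5 : (2 * m + 1) * X + 8 ≤ t * (e7 / 2 * x - a) := by
    have e1 : (4 * m ^ 2 + 2 * m + 1) * x ≤ t * (e7 / 2) * x := mul_le_mul_of_nonneg_right ht hx0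
    have e3 : t * (e7 / 2 * x - a) = t * (e7 / 2) * x - t * a := by ring
    have e4 : (2 * m + 1) * (2 * m * x + Cc) + 8 =
      (4 * m ^ 2 + 2 * m) * x + (2 * m + 1) * Cc + 8 := by ring
    have e5 : (4 * m ^ 2 + 2 * m + 1) * x = (4 * m ^ 2 + 2 * m) * x + x := by ring
    rw [hX, e3, e4]
    rw [e5] at e1
    linarith only [e1, hL1, hLx]
  have t6 : w * ((2 * m + 1) * X + 8) ≤ w * (t * (e7 / 2 * x - a)) :=
    mul_le_mul_of_nonneg_left t5 hw0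
  calc (R : ℝ) * Real.log R + 4 * R * ρ * Q ^ (e0 + s) + d0 * t * Real.log Z
      ≤ 2 * w * (m * X) + 8 * w + w * X := by linarith only [t1, t2, t3]
    _ = w * ((2 * m + 1) * X + 8) := by ring
    _ ≤ w * (t * (e7 / 2 * x - a)) := t6
    _ = w * t * (e7 / 2 * x - a) := by ring
    _ < w * t * ((e' : ℝ) + 1) * ℓ := t4

end Pool.Agent.H48.SX
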